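import Pool.Agent.Helper9.UP.StC

/-! Project UP, module FB: case B. -/

set_option autoImplicit false

noncomputable section

namespace Pool.Agent.Helper62.UP

open Finset Polynomial Pool.Agent.Helper9.UP

open Classical in
/-- the indicator function of the integers without prime factors in `Qf f w` -/
def I0 (f : ℤ[X]) (w n : ℕ) : ℝ := if ∀ p ∈ Qf f w, ¬ p ∣ n then 1 else 0

theorem tw_le {f : ℤ[X]} {w : ℕ} {lam ε : ℝ} {F0 F1 : Finset (Finset ℕ)}
    (hF : FLp f w lam ε F0 F1) (n : ℕ) : tw F1 n ≤ I0 f w n := by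
  classical
  have h1 := hF.lo (fun p => if p ∣ n then (1 : ℝ) else 0) (fun p => by
    split_ifs <;> norm_num)
  have h2 : MW F1 (fun p => if p ∣ n then (1 : ℝ) else 0) = tw F1 n := by
    unfold MW tw
    refine Finset.sum_congr rfl fun T _ => ?_
    congr 1
  rw [h2] at h1
  refine h1.trans ?_
  unfold I0
  split_ifs with h
  · refine Finset.prod_le_one (fun p _ => ?_) (fun p _ => ?_)
    · split_ifs <;> norm_num
    · split_ifs <;> norm_num
  · push Not at h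
    obtain ⟨p, hp, hpn⟩ := h
    refine le_of_eq (Finset.prod_eq_zero hp ?_)
    rw [if_pos hpn, sub_self]

theorem sum_swap (A P : Finset ℕ) (c : ℕ → ℝ) (v : ℕ → ℕ) (f : ℤ[X]) (w : ℕ) :
    ∑ m ∈ A, I0 f w (v m) * ∑ p ∈ P, (if p ∣ v m then c p else 0) =
      ∑ p ∈ P, c p * ((A.filter (fun m : ℕ => p ∣ v m ∧ ∀ p' ∈ Qf f w, ¬ p' ∣ v m)).card : ℝ) := by
  classical
  have h1 : ∀ m ∈ A, I0 f w (v m) * ∑ p ∈ P, (if p ∣ v m then c p else 0) =
      ∑ p ∈ P, (if p ∣ v m ∧ ∀ p' ∈ Qf f w, ¬ p' ∣ v m then c p else 0) := by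
    intro m _
    rw [Finset.mul_sum]
    refine Finset.sum_congr rfl fun p _ => ?_
    unfold I0
    by_cases h2 : ∀ p' ∈ Qf f w, ¬ p' ∣ v m
    · by_cases h3 : p ∣ v m
      · rw [if_pos h2, if_pos h3, if_pos ⟨h3, h2⟩, one_mul]
      · have h4 : ¬ (p ∣ v m ∧ ∀ p' ∈ Qf f w, ¬ p' ∣ v m) := fun h => h3 h.1
        rw [if_neg h3, if_neg h4, mul_zero]
    · have h4 : ¬ (p ∣ v m ∧ ∀ p' ∈ Qf f w, ¬ p' ∣ v m) := fun h => h2 h.2
      rw [if_neg h2, if_neg h4, zero_mul]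
  rw [Finset.sum_congr rfl h1, Finset.sum_comm]
  refine Finset.sum_congr rfl fun p _ => ?_
  rw [← Finset.sum_filter, Finset.sum_const, nsmul_eq_mul, mul_comm]

theorem hFB (hFL : StFL) (hCU : StCU) (hNB : StNB) (hC0 : StC0) (hPT : StPT) (hSQ : StSQ)
    (hPO : StPO) (hEX : StEX) : StFB := by
  classical
  obtain ⟨Bs, ΛF, hBs, hF⟩ := hFL (1 / 1000) (by norm_num) (by norm_num)
  obtain ⟨CN, ΛN, hN⟩ := hNB Bs hBs
  obtain ⟨Cs, ΛS, hCs, hS⟩ := hSQ
  obtain ⟨ΛE, hΛE, hE⟩ := hEX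
  have hB8 : (0 : ℝ) < 8 * Bs := by linarith
  have hθ0 : 0 < 1 / (8 * Bs) := by positivity
  have hθ8 : 1 / (8 * Bs) ≤ 1 / 8 := by
    apply one_div_le_one_div_of_le <;> linarith
  refine ⟨4 / 5, 7 / 8, 1 / (8 * Bs), 1 / (8 * Bs), 1, Bs, max CN (300 + 8 * Bs * (Cs + 2)),
    max (max ΛF ΛN) (max ΛS ΛE), by norm_num, by norm_num, hθ0, by linarith, hθ0, by norm_num,
    hBs, ?_⟩
  intro Λ hΛ f hf hlc hnfd N hlogN hlogN' hsum
  have hΛF : ΛF ≤ Λ := le_trans (le_trans (le_max_left _ _) (le_max_left _ _)) hΛ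
  have hΛN : ΛN ≤ Λ := le_trans (le_trans (le_max_right _ _) (le_max_left _ _)) hΛ
  have hΛS : ΛS ≤ Λ := le_trans (le_trans (le_max_left _ _) (le_max_right _ _)) hΛ
  have hΛE' : ΛE ≤ Λ := le_trans (le_trans (le_max_right _ _) (le_max_right _ _)) hΛ
  have hΛ1 : 1 ≤ Λ := hΛE.trans hΛE'
  have hΛ5 : Λ ≤ Λ ^ 5 := le_self_pow₀ hΛ1 (by norm_num)
  have hΛ35 : Λ ^ 3 ≤ Λ ^ 5 := pow_le_pow_right₀ hΛ1 (by norm_num)
  have hΛ51 : 1 ≤ Λ ^ 5 := one_le_pow₀ hΛ1
  have hCN : CN * Λ ^ 5 ≤ Real.log N :=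
    le_trans (mul_le_mul_of_nonneg_right (le_max_left _ _) (by positivity)) hlogN
  have hC2 : (300 + 8 * Bs * (Cs + 2)) * Λ ^ 5 ≤ Real.log N :=
    le_trans (mul_le_mul_of_nonneg_right (le_max_right _ _) (by positivity)) hlogN
  have hBC : 0 ≤ 8 * Bs * (Cs + 2) := by positivity
  have h300 : 300 * Λ ≤ Real.log N := by
    have h1 : (300 : ℝ) * Λ ≤ 300 * Λ ^ 5 := by linarith
    have h2 : (0 : ℝ) ≤ 8 * Bs * (Cs + 2) * Λ ^ 5 := by positivity
    have h3 : (300 + 8 * Bs * (Cs + 2)) * Λ ^ 5 = 300 * Λ ^ 5 + 8 * Bs * (Cs + 2) * Λ ^ 5 := by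
      ring
    linarith
  have hNpos : 0 < (N : ℝ) := by
    rcases Nat.eq_zero_or_pos N with h0 | h0
    · rw [h0, Nat.cast_zero, Real.log_zero] at h300
      linarith
    · exact_mod_cast h0
  have hNexp : Real.exp Λ + 2 ≤ (N : ℝ) := by
    have h1 : Real.exp (2 * Λ) ≤ N := by
      rw [← Real.exp_log hNpos]
      exact Real.exp_le_exp.2 (by linarith)
    have h2 : Real.exp (2 * Λ) = Real.exp Λ * Real.exp Λ := by
      rw [two_mul, Real.exp_add]
    have h3 : 2 ≤ Real.exp Λ := by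
      have := Real.add_one_le_exp Λ
      linarith
    nlinarith
  -- the exponent and `w`
  have hθlog : (Cs + 2) * Λ ^ 5 ≤ 1 / (8 * Bs) * Real.log N := by
    have h1 : 8 * Bs * (Cs + 2) * Λ ^ 5 ≤ Real.log N := by
      have h3 : (300 + 8 * Bs * (Cs + 2)) * Λ ^ 5 = 300 * Λ ^ 5 + 8 * Bs * (Cs + 2) * Λ ^ 5 := by
        ring
      linarith
    rw [div_mul_eq_mul_div, one_mul, le_div_iff₀ hB8]
    linarith
  have hNθ : (N : ℝ) ^ (1 / (8 * Bs)) = Real.exp (1 / (8 * Bs) * Real.log N) := by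
    rw [Real.rpow_def_of_pos hNpos, mul_comm]
  obtain ⟨w, hw⟩ : ∃ w : ℕ, w = ⌊(N : ℝ) ^ (1 / (8 * Bs))⌋₊ := ⟨_, rfl⟩
  have hw2 : 2 ≤ w := by
    rw [hw]
    apply Nat.le_floor
    rw [hNθ]
    have h1 := Real.add_one_le_exp (1 / (8 * Bs) * Real.log N)
    have h2 : (Cs + 2) ≤ (Cs + 2) * Λ ^ 5 := le_mul_of_one_le_right (by linarith) hΛ51
    push_cast
    linarith
  have hw0 : (0 : ℝ) < w := by
    have : (2 : ℝ) ≤ w := by exact_mod_cast hw2
    linarith
  have hwle : (w : ℝ) ≤ (N : ℝ) ^ (1 / (8 * Bs)) := by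
    rw [hw]
    exact Nat.floor_le (by positivity)
  have hlogw : Real.log w ≤ 1 / (8 * Bs) * Real.log N := by
    have h1 := Real.log_le_log hw0 hwle
    rwa [Real.log_rpow hNpos] at h1
  have hlogw' : Cs * Λ ^ 3 ≤ Real.log w := by
    have h1 : (N : ℝ) ^ (1 / (8 * Bs)) < w + 1 := by
      rw [hw]
      exact Nat.lt_floor_add_one _
    have h2 : (w : ℝ) + 1 ≤ 2 * w := by
      have : (2 : ℝ) ≤ w := by exact_mod_cast hw2
      linarith
    have h3 := Real.log_le_log (Real.rpow_pos_of_pos hNpos _) (h1.le.trans h2)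
    rw [Real.log_rpow hNpos, Real.log_mul (by norm_num) hw0.ne'] at h3
    have h4 : Real.log 2 ≤ 1 := by
      have := Real.log_two_lt_d9
      linarith
    have h5 : Cs * Λ ^ 3 ≤ Cs * Λ ^ 5 := mul_le_mul_of_nonneg_left hΛ35 (by linarith)
    nlinarith
  have hlogN0 : 0 ≤ Real.log N := by linarith
  have hlogwN : Real.log w ≤ Real.log N := by
    have : 1 / (8 * Bs) * Real.log N ≤ 1 / 8 * Real.log N :=
      mul_le_mul_of_nonneg_right hθ8 hlogN0
    linarith
  have hexp8 : Real.exp (Λ / 16) ≤ Real.exp (Λ / 8) := Real.exp_le_exp.2 (by linarith)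
  have hlogw8 : Real.log w ≤ Real.exp (Λ / 8) := by linarith
  have hFLh : FLh Bs Λ f := fun w hw hlw => hF Λ hΛF f hf w hw hlw
  obtain ⟨F0, F1, hFp⟩ := hFLh w hw2 hlogw8
  obtain ⟨m0, hm0, hm0'⟩ := hC0 f hnfd hf.deg
  obtain ⟨hEsum, hEV⟩ := hE Λ hΛE' f hf w hlogw8
  have hV0 : 0 ≤ VV f w := (Real.exp_pos _).le.trans hEV
  have hPM : (0 : ℝ) < PM f := by
    have : 0 < PM f := by omega
    exact_mod_cast this
  have hM0 : 0 ≤ (N : ℝ) / PM f := by positivity
  -- notation for the proof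
  set A := AA f m0 N with hA
  set P' := (Nr f N (1 / (8 * Bs))).filter (fun p : ℕ => (N : ℝ) ^ (1 / (8 * Bs)) < (p : ℝ)) with hP'
  -- the first sum
  have hS1 : 999 / 1000 * ((N : ℝ) / PM f) * VV f w -
      Real.exp (Bs * (Real.log w + Λ ^ 4) + Λ ^ 2) ≤ ∑ m ∈ A, I0 f w (val f m) := by
    have h1 := (hCU Λ (Bs * (Real.log w + Λ ^ 4)) (Λ ^ 2) f m0 N w F1 hf hlc hm0 hNexp
      (fun T hT => hFp.sub T (Finset.mem_union_right _ hT)) hEsum).1
    have h2 := (abs_le.1 h1).1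
    have h3 : ∑ m ∈ A, tw F1 (val f m) ≤ ∑ m ∈ A, I0 f w (val f m) :=
      Finset.sum_le_sum fun m _ => tw_le hFp _
    have h4 : (N : ℝ) / PM f * ((1 - 1 / 1000) * VV f w) ≤ (N : ℝ) / PM f * MW F1 (gf f) :=
      mul_le_mul_of_nonneg_left hFp.main1 hM0
    nlinarith
  -- the second sum
  have hS2 : ∑ m ∈ A, I0 f w (val f m) *
      ∑ p ∈ P', (if p ∣ val f m then 1 - Real.log p / Real.log N else 0) ≤
      55 / 200 * ((N : ℝ) / PM f) * VV f w +
        N * Real.exp (2 * Bs * Λ ^ 4 - Real.log N / (4 * Λ)) := by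
    rw [sum_swap A P' (fun p => 1 - Real.log p / Real.log N) (val f) f w]
    have h1 := hN Λ hΛN f hf hlc hFLh m0 N w hm0 hCN hlogN' hw
    have h2 : 55 * (∑ p ∈ (range (N + 1)).filter
        (fun p : ℕ => p.Prime ∧ (N : ℝ) ^ (1 / (8 * Bs)) < (p : ℝ)), gf f p) *
        ((N : ℝ) / PM f) * VV f w ≤ 55 / 200 * ((N : ℝ) / PM f) * VV f w := by
      refine mul_le_mul_of_nonneg_right (mul_le_mul_of_nonneg_right ?_ hM0) hV0
      linarith
    refine le_trans ?_ (h1.trans (by linarith))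
    refine le_of_eq (Finset.sum_congr rfl fun p _ => ?_)
    congr!
  -- the exceptional set
  set y := ⌊(N : ℝ) ^ vd f⌋₊ with hy
  have hd1 : (1 : ℝ) ≤ f.natDegree := by exact_mod_cast hf.deg
  have hvd : 2 / 3 ≤ vd f := by
    unfold vd
    rw [div_le_div_iff₀ (by norm_num) (by linarith)]
    linarith
  have hN1 : (1 : ℝ) ≤ N := by
    have := Real.exp_pos Λ
    linarith
  have hwy : w ≤ y := by
    rw [hw, hy]
    exact Nat.floor_mono (Real.rpow_le_rpow_of_exponent_le hN1 (by linarith))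
  have hEx := hS Λ hΛS f hf N w y hlogw' hwy
  set Ex := (Ioc N (2 * N)).filter (fun m : ℕ => ∃ p : ℕ, p.Prime ∧ w < p ∧ p ≤ y ∧
    ((p ^ 2 : ℕ) : ℤ) ∣ f.eval (m : ℤ)) with hExd
  rw [Nat.subtype_card Ex (fun m => by
    rw [hExd, Finset.mem_filter, Finset.mem_Ioc, and_assoc])] at hEx
  have hyle : (y : ℝ) ≤ (N : ℝ) ^ vd f := by
    rw [hy]
    exact Nat.floor_le (by positivity)
  -- the pointwise statement
  have hgood : ∀ m ∈ A, I0 f w (val f m) * (1 - 7 / 10 *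
      ∑ p ∈ P', (if p ∣ val f m then 1 - Real.log p / Real.log N else 0)) ≤
      (if m ∈ Gd f N (1 / (8 * Bs)) ∪ Ex then (1 : ℝ) else 0) := by
    intro m hm
    rw [hA, AA, Finset.mem_filter, Finset.mem_Ioc] at hm
    obtain ⟨⟨hNm, hm2⟩, hmod⟩ := hm
    have hmexp : Real.exp Λ + 2 ≤ (m : ℝ) := by
      have : (N : ℝ) ≤ m := by exact_mod_cast hNm.le
      linarith
    obtain ⟨hev1, hval, -⟩ := hPO Λ f hf hlc m hmexp
    have hdvd : ∀ q : ℕ, q ∣ val f m ↔ (q : ℤ) ∣ f.eval (m : ℤ) := by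
      intro q
      rw [← hval, Int.natCast_dvd_natCast]
    have hval0 : val f m ≠ 0 := by
      intro h0
      rw [h0] at hval
      push_cast at hval
      omega
    have hterm : ∀ p ∈ P', 0 ≤ 1 - Real.log p / Real.log N := by
      intro p hp
      rw [hP', Finset.mem_filter, Nr, Finset.mem_filter, Finset.mem_range] at hp
      have hpN : (p : ℝ) ≤ N := by
        have : p ≤ N := by omega
        exact_mod_cast this
      have hp0 : (0 : ℝ) < p := by exact_mod_cast hp.1.2.1.pos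
      have h1 := Real.log_le_log hp0 hpN
      rw [sub_nonneg]
      exact div_le_one_of_le₀ h1 hlogN0
    have hsum0 : 0 ≤ ∑ p ∈ P', (if p ∣ val f m then 1 - Real.log p / Real.log N else 0) := by
      refine Finset.sum_nonneg fun p hp => ?_
      split_ifs
      · exact hterm p hp
      · exact le_rfl
    unfold I0
    by_cases hI : ∀ p ∈ Qf f w, ¬ p ∣ val f m
    swap
    · rw [if_neg hI, zero_mul]
      split_ifs <;> norm_num
    rw [if_pos hI, one_mul]
    by_cases hmem : m ∈ Gd f N (1 / (8 * Bs)) ∪ Ex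
    · rw [if_pos hmem]
      linarith
    rw [if_neg hmem]
    by_contra hpos
    push Not at hpos
    apply hmem
    rw [Finset.mem_union]
    by_cases hmEx : m ∈ Ex
    · exact Or.inr hmEx
    left
    -- all prime factors are large
    have hlarge : ∀ p : ℕ, p.Prime → p ∣ val f m → w < p := by
      intro p hp hpv
      by_contra hpw
      push Not at hpw
      by_cases hpd : p ≤ 2 * f.natDegree
      · exact hm0' m hmod p hp hpd ((hdvd p).1 hpv)
      · refine hI p ?_ hpv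
        rw [Qf, Finset.mem_filter, Finset.mem_Ioc]
        exact ⟨⟨by omega, hpw⟩, hp⟩
    have hlarge' : ∀ p : ℕ, p.Prime → p ∣ val f m → (N : ℝ) ^ (1 / (8 * Bs)) < (p : ℝ) := by
      intro p hp hpv
      have h1 := hlarge p hp hpv
      rw [hw] at h1
      exact Nat.lt_of_floor_lt h1
    have hsq : ∀ p : ℕ, p.Prime → (p : ℝ) ≤ (N : ℝ) ^ vd f → ¬ p ^ 2 ∣ val f m := by
      intro p hp hpN hp2
      apply hmEx
      rw [hExd, Finset.mem_filter, Finset.mem_Ioc]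
      refine ⟨⟨hNm, hm2⟩, p, hp, hlarge p hp ((dvd_pow_self p (by norm_num)).trans hp2), ?_, ?_⟩
      · rw [hy]
        exact Nat.le_floor hpN
      · exact (hdvd (p ^ 2)).1 hp2
    have hsumeq : ∑ p ∈ (val f m).primeFactors.filter (fun p : ℕ => (p : ℝ) ≤ (N : ℝ) ^ vd f),
        (1 - Real.log p / Real.log N) ≤
        ∑ p ∈ P', (if p ∣ val f m then 1 - Real.log p / Real.log N else 0) := by
      rw [← Finset.sum_filter]
      refine Finset.sum_le_sum_of_subset_of_nonneg ?_ ?_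
      · intro p hp
        rw [Finset.mem_filter, Nat.mem_primeFactors] at hp
        obtain ⟨⟨hpp, hpv, -⟩, hpN⟩ := hp
        have h2 := hlarge' p hpp hpv
        have hvd1 : vd f ≤ 1 := by
          unfold vd
          exact div_le_one_of_le₀ (by linarith) (by linarith)
        have hpN' : (p : ℝ) ≤ N := by
          refine hpN.trans ?_
          calc (N : ℝ) ^ vd f ≤ (N : ℝ) ^ (1 : ℝ) := Real.rpow_le_rpow_of_exponent_le hN1 hvd1
            _ = N := Real.rpow_one _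
        rw [Finset.mem_filter, hP', Finset.mem_filter, Nr, Finset.mem_filter, Finset.mem_range]
        refine ⟨⟨⟨?_, hpp, h2.le, hpN⟩, h2⟩, hpv⟩
        have : p ≤ N := by exact_mod_cast hpN'
        omega
      · intro p hp _
        exact hterm p (Finset.mem_filter.1 hp).1
    obtain ⟨hg1, hg2⟩ := hPT Λ f N m hf hlc hNexp h300 hNm hm2 hsq (by linarith)
    rw [Gd, Finset.mem_filter, Finset.mem_Ioc]
    exact ⟨⟨hNm, hm2⟩, hg1, hg2, hlarge'⟩
  -- the count
  have hcount : ∑ m ∈ A, I0 f w (val f m) * (1 - 7 / 10 *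
      ∑ p ∈ P', (if p ∣ val f m then 1 - Real.log p / Real.log N else 0)) ≤
      ((Gd f N (1 / (8 * Bs))).card : ℝ) + (Ex.card : ℝ) := by
    refine (Finset.sum_le_sum hgood).trans ?_
    rw [Finset.sum_boole]
    have h1 : (A.filter (fun m => m ∈ Gd f N (1 / (8 * Bs)) ∪ Ex)).card ≤
        (Gd f N (1 / (8 * Bs))).card + Ex.card := by
      refine (Finset.card_le_card ?_).trans (Finset.card_union_le _ _)
      intro m hm
      exact (Finset.mem_filter.1 hm).2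
    exact_mod_cast h1
  have hsplit : ∑ m ∈ A, I0 f w (val f m) * (1 - 7 / 10 *
      ∑ p ∈ P', (if p ∣ val f m then 1 - Real.log p / Real.log N else 0)) =
      ∑ m ∈ A, I0 f w (val f m) - 7 / 10 * ∑ m ∈ A, I0 f w (val f m) *
        ∑ p ∈ P', (if p ∣ val f m then 1 - Real.log p / Real.log N else 0) := by
    rw [Finset.mul_sum, ← Finset.sum_sub_distrib]
    refine Finset.sum_congr rfl fun m _ => ?_
    ring
  have hexp : Real.exp (Bs * (Real.log w + Λ ^ 4) + Λ ^ 2) ≤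
      1 * Real.exp (Bs * Λ ^ 4 + 2 * Λ ^ 2) * (N : ℝ) ^ (1 - 7 / 8 : ℝ) := by
    rw [one_mul, Real.rpow_def_of_pos hNpos, ← Real.exp_add]
    apply Real.exp_le_exp.2
    have h1 : Bs * Real.log w ≤ 1 / 8 * Real.log N := by
      have h2 : Bs * Real.log w ≤ Bs * (1 / (8 * Bs) * Real.log N) :=
        mul_le_mul_of_nonneg_left hlogw (by linarith)
      have h3 : Bs * (1 / (8 * Bs) * Real.log N) = 1 / 8 * Real.log N := by
        have : Bs ≠ 0 := by linarith
        field_simp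
      linarith
    nlinarith [sq_nonneg Λ]
  have hNexp0 : 0 ≤ (N : ℝ) * Real.exp (2 * Bs * Λ ^ 4 - Real.log N / (4 * Λ)) := by positivity
  have hMV : 0 ≤ (N : ℝ) / PM f * VV f w := mul_nonneg hM0 hV0
  have hdy : (f.natDegree : ℝ) * y ≤ f.natDegree * (N : ℝ) ^ vd f :=
    mul_le_mul_of_nonneg_left hyle (by linarith)
  rw [← hw]
  unfold Er
  rw [hsplit] at hcount
  have hEx' : (Ex.card : ℝ) ≤ (f.natDegree : ℝ) * N / w + f.natDegree * y := hEx
  have e1 : 4 / 5 * ((N : ℝ) / PM f) * VV f w = 4 / 5 * ((N : ℝ) / PM f * VV f w) := by ring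
  have e2 : 999 / 1000 * ((N : ℝ) / PM f) * VV f w = 999 / 1000 * ((N : ℝ) / PM f * VV f w) := by
    ring
  have e3 : 55 / 200 * ((N : ℝ) / PM f) * VV f w = 55 / 200 * ((N : ℝ) / PM f * VV f w) := by ring
  rw [e1]
  rw [e2] at hS1
  rw [e3] at hS2
  linarith

end Pool.Agent.Helper62.UP
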